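import Mathlib
import Pool.Agent.MP_0e403a_al.Pairs
import Pool.Agent.MP_0e403a_al.Irr
import Pool.Agent.MP_0e403a_al.Exist

set_option autoImplicit false

namespace Pool.Agent.Results.MP_0e403a_al.CyclicUnitary

open Filter
open scoped Topology Matrix

/-- For a Hermitian matrix `H` over a field `F` with involution `star`, the unitary group of the
form with Gram matrix `H` is the set of all matrices `g` with `gᴴ * H * g = H`, and `g` is cyclic
if its minimal polynomial equals its characteristic polynomial.  This is the proportion of cyclic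
matrices in that group. -/
noncomputable def cyclicProportion {F : Type} [Field F] [StarRing F] {n : ℕ}
    (H : Matrix (Fin n) (Fin n) F) : ℝ :=
  (Nat.card {g : Matrix (Fin n) (Fin n) F // gᴴ * H * g = H ∧ minpoly F g = g.charpoly} : ℝ) /
    (Nat.card {g : Matrix (Fin n) (Fin n) F // gᴴ * H * g = H} : ℝ)

/-- The limiting proportion `C q` of cyclic matrices in the unitary groups over the field of
`q ^ 2` elements exists for every prime power `q`, does not depend on the chosen nondegenerate
Hermitian forms, and agrees with any given rational function of `q` (even with real coefficients)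
for only finitely many prime powers `q`. -/
theorem result :
    ∃ C : ℕ → ℝ,
      (∀ q : ℕ, IsPrimePow q →
        (∃ (F : Type) (_ : Field F) (_ : StarRing F), Nat.card F = q ^ 2 ∧ ∃ a : F, star a ≠ a) ∧
        (∀ (F : Type) [Field F] [StarRing F], Nat.card F = q ^ 2 → (∃ a : F, star a ≠ a) →
          ∀ H : (n : ℕ) → Matrix (Fin n) (Fin n) F,
            (∀ n, (H n).IsHermitian ∧ (H n).det ≠ 0) →
            Tendsto (fun n => cyclicProportion (H n)) atTop (𝓝 (C q)))) ∧
      (∀ R : RatFunc ℝ,
        {q : ℕ | IsPrimePow q ∧ C q = R.eval (RingHom.id ℝ) (q : ℝ)}.Finite) := by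
  refine ⟨fun q => Pool.Agent.MP_0e403a_al.climit q, ?_, ?_⟩
  · intro q hq
    refine ⟨Pool.Agent.MP_0e403a_al.exists_field hq, ?_⟩
    intro F _ _ hcard hF H hH
    have hq2 : 2 ≤ q := hq.two_le
    have hfin : Finite F := by
      apply Nat.finite_of_card_ne_zero
      rw [hcard]
      exact pow_ne_zero _ (by omega)
    have h1 := (tendsto_add_atTop_iff_nat 1).mpr
      (Pool.Agent.MP_0e403a_al.tendsto_climit hF hcard hq2)
    apply (tendsto_add_atTop_iff_nat 1).mp
    apply h1.congr
    intro m
    rw [← Pool.Agent.MP_0e403a_al.cyclic_proportion hF hcard (hH (m + 1)).1 (hH (m + 1)).2]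
    rfl
  · intro R
    have h1 := Pool.Agent.MP_0e403a_al.finite_agree (P := R.num) (D := R.denom) R.denom_ne_zero
    have h2 : {q : ℕ | R.denom.eval (q : ℝ) = 0}.Finite := by
      have h3 : {x : ℝ | R.denom.IsRoot x}.Finite := Polynomial.finite_setOfPred_isRoot R.denom_ne_zero
      exact h3.preimage (f := fun q : ℕ => (q : ℝ)) (fun a _ b _ h => Nat.cast_injective h)
    refine (h1.union h2).subset ?_
    rintro q ⟨hq, h⟩
    by_cases h4 : R.denom.eval (q : ℝ) = 0
    · exact Or.inr h4
    · left
      refine ⟨hq.two_le, ?_⟩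
      have h5 : Pool.Agent.MP_0e403a_al.climit q = R.num.eval (q : ℝ) / R.denom.eval (q : ℝ) := by
        have h6 : Pool.Agent.MP_0e403a_al.climit q = R.eval (RingHom.id ℝ) (q : ℝ) := h
        rw [h6, RatFunc.eval, Polynomial.eval₂_id, Polynomial.eval₂_id]
      rw [h5, div_mul_cancel₀ _ h4]

end Pool.Agent.Results.MP_0e403a_al.CyclicUnitary
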